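import Pool.Agent.Helper16.MD.Stmts

/-! MP_f13728_an, module ORT: orthogonality of the Moebius function to the points of a generalized
Morse system, from the main proposition and the case of a discrete spectrum. -/

open Finset Filter
open scoped ComplexConjugate

namespace Pool.Agent.Helper16.MD

open Pool.Agent.Helper51.Mo (PM pw len Lev Orth)

/-- a function of absolute value one with real part `g` -/
noncomputable def ort_u (g : ℕ → ℝ) (x : ℕ) : ℂ :=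
  ⟨g x, Real.sqrt (1 - g x ^ 2)⟩

theorem ort_u_norm (g : ℕ → ℝ) (x : ℕ) (h : |g x| ≤ 1) : ‖ort_u g x‖ = 1 := by
  have h1 : 0 ≤ 1 - g x ^ 2 := by
    have := (sq_le_one_iff_abs_le_one (g x)).2 h
    linarith
  have h2 : ‖ort_u g x‖ ^ 2 = 1 := by
    rw [← Complex.normSq_eq_norm_sq, Complex.normSq_apply]
    simp only [ort_u]
    rw [← sq, ← sq, Real.sq_sqrt h1]
    ring
  have h3 : 0 ≤ ‖ort_u g x‖ := norm_nonneg _
  nlinarith [h2, h3]

theorem ort_ee_norm (x : ℝ) : ‖ee x‖ = 1 := by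
  unfold ee
  exact Complex.norm_exp_ofReal_mul_I _

theorem ort_AW_nonneg (β : ℕ → ℕ → ℝ) (ℓ : ℕ → ℕ) (i : ℕ) (θ : ℝ) : 0 ≤ AW β ℓ i θ :=
  norm_nonneg _

theorem ort_AW_le (β : ℕ → ℕ → ℝ) (ℓ : ℕ → ℕ) (hβ : ∀ i n, PM (β i n)) (i : ℕ) (θ : ℝ)
    (hℓ : 1 ≤ ℓ i) : AW β ℓ i θ ≤ 1 := by
  unfold AW
  have hpos : (0 : ℝ) < (ℓ i : ℝ) := by exact_mod_cast hℓ
  rw [norm_div, Complex.norm_natCast, div_le_one hpos]
  refine (norm_sum_le _ _).trans ?_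
  calc ∑ x ∈ range (ℓ i), ‖((β i x : ℝ) : ℂ) * ee (θ * x)‖ = ∑ x ∈ range (ℓ i), (1 : ℝ) := by
        refine sum_congr rfl fun x _ => ?_
        rw [norm_mul, ort_ee_norm, Complex.norm_real, Real.norm_eq_abs, (hβ i x).abs, one_mul]
    _ = ℓ i := by simp
    _ ≤ ℓ i := le_rfl

theorem ort_prod_mono (f : ℕ → ℝ) (h0 : ∀ i, 0 ≤ f i) (h1 : ∀ i, f i ≤ 1) {k k' : ℕ}
    (h : k ≤ k') : ∏ i ∈ range k', f i ≤ ∏ i ∈ range k, f i := by
  obtain ⟨t, rfl⟩ := Nat.exists_eq_add_of_le h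
  rw [Finset.prod_range_add]
  have hA : 0 ≤ ∏ i ∈ range k, f i := Finset.prod_nonneg fun i _ => h0 i
  have hB : ∏ i ∈ range t, f (k + i) ≤ 1 := Finset.prod_le_one (fun i _ => h0 _) fun i _ => h1 _
  calc _ ≤ (∏ i ∈ range k, f i) * 1 := mul_le_mul_of_nonneg_left hB hA
    _ = _ := mul_one _

/-- the real part of the complex sum -/
theorem ort_re (g η : ℕ → ℝ) (N : ℕ) :
    (MS (fun x => ort_u g x * ((η x : ℝ) : ℂ)) N).re =
      ∑ n ∈ Icc 1 N, ((ArithmeticFunction.moebius n : ℤ) : ℝ) * (g n * η n) := by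
  unfold MS
  rw [Complex.re_sum]
  refine sum_congr rfl fun n _ => ?_
  have h1 : ((ArithmeticFunction.moebius n : ℤ) : ℂ) =
      (((ArithmeticFunction.moebius n : ℤ) : ℝ) : ℂ) := by push_cast; rfl
  rw [h1, Complex.re_ofReal_mul, Complex.re_mul_ofReal]
  rfl

theorem ort_freq (S : ℕ → ℝ) (h : ¬ Tendsto (fun N : ℕ => S N / (N : ℝ)) atTop (nhds 0)) :
    ∃ η₀ : ℝ, 0 < η₀ ∧ η₀ ≤ 1 ∧ ∃ᶠ N : ℕ in atTop, η₀ * N ≤ |S N| := by
  rw [Metric.tendsto_nhds] at h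
  push Not at h
  obtain ⟨ε, hε, hf⟩ := h
  refine ⟨min ε 1, lt_min hε one_pos, min_le_right _ _, ?_⟩
  refine hf.mono fun N hN => ?_
  rw [Real.dist_eq, sub_zero] at hN
  have hN' : ε ≤ |S N / (N : ℝ)| := not_lt.1 (by simpa using hN)
  rcases Nat.eq_zero_or_pos N with h0 | hpos
  · subst h0
    simp
  · have hp : (0 : ℝ) < (N : ℝ) := by exact_mod_cast hpos
    rw [abs_div, abs_of_pos hp, le_div_iff₀ hp] at hN'
    exact (mul_le_mul_of_nonneg_right (min_le_left _ _) hp.le).trans hN'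

theorem st_ORT (hPRA : ST_PRA) (hPRD : ST_PRD) (hSTA : ST_STA) (hSTB : ST_STB)
    (hDSC : ST_DSC) : ST_ORT := by
  intro β ℓ η hℓ hβ hper hLev
  by_cases hDT : DT β ℓ
  · exact hDSC β ℓ η hℓ hβ hper hDT hLev
  intro i g hg hg1
  by_contra hcon
  apply hDT
  have hℓ1 : ∀ i, 1 ≤ ℓ i := fun i => le_trans (by norm_num) (hℓ i)
  obtain ⟨η₀, hη0, hη1, hfreq⟩ := ort_freq
    (fun N => ∑ n ∈ Icc 1 N, ((ArithmeticFunction.moebius n : ℤ) : ℝ) * (g n * η n)) hcon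
  obtain ⟨c, hc, n₀, hn₀⟩ := hPRA η₀ hη0 hη1
  have hj : n₀ ≤ len ℓ 0 (i + n₀) := by
    have h1 := Pool.Agent.Helper51.Mo.two_pow_le_len ℓ hℓ 0 (i + n₀)
    have h2 : i + n₀ < 2 ^ (i + n₀) := Nat.lt_two_pow_self
    omega
  obtain ⟨Λ₀, hΛ₀⟩ := hn₀ (len ℓ 0 (i + n₀)) hj
  have key : ∀ k, ∃ θ : ℝ, c ≤ ∏ t ∈ range k, AW β ℓ ((i + n₀) + t) (θ * len ℓ (i + n₀) t) := by
    intro k
    set k' : ℕ := max k Λ₀ with hk'
    have hΛ : Λ₀ ≤ len ℓ (i + n₀) k' := by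
      have h1 := Pool.Agent.Helper51.Mo.two_pow_le_len ℓ hℓ (i + n₀) k'
      have h2 : k' < 2 ^ k' := Nat.lt_two_pow_self
      have h3 : Λ₀ ≤ k' := le_max_right _ _
      omega
    obtain ⟨a, _, ω, hω, hη⟩ := hLev (i + n₀ + k')
    have hmain := hΛ₀ (len ℓ (i + n₀) k') a
      (fun x => ort_u g x * ((pw β ℓ 0 (i + n₀) (x + a) : ℝ) : ℂ))
      (fun x => ((pw β ℓ (i + n₀) k' x : ℝ) : ℂ)) (fun x => ((ω x : ℝ) : ℂ)) hΛ ?_ ?_ ?_ ?_
    · obtain ⟨θ, hθ⟩ := hmain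
      refine ⟨θ, ?_⟩
      rw [hPRD β ℓ hℓ1 hper (i + n₀) k' θ] at hθ
      exact hθ.trans (ort_prod_mono _ (fun t => ort_AW_nonneg _ _ _ _)
        (fun t => ort_AW_le β ℓ hβ _ _ (hℓ1 _)) (le_max_left _ _))
    · intro x
      refine ⟨?_, ?_, ?_⟩
      · rw [norm_mul, ort_u_norm g x (hg1 x), Complex.norm_real, Real.norm_eq_abs,
          (Pool.Agent.Helper51.Mo.pw_pm β ℓ hβ _ _ _).abs, one_mul]
      · rw [Complex.norm_real, Real.norm_eq_abs, (Pool.Agent.Helper51.Mo.pw_pm β ℓ hβ _ _ _).abs]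
      · rw [Complex.norm_real, Real.norm_eq_abs, (hω x).abs]
    · intro x
      have h1 : g (x + len ℓ 0 (i + n₀)) = g x := by
        rw [Pool.Agent.Helper51.Mo.len_add]
        exact Pool.Agent.Helper51.Mo.per_mul g (len ℓ 0 i) hg _ x
      have h2 : ort_u g (x + len ℓ 0 (i + n₀)) = ort_u g x := by
        simp only [ort_u, h1]
      have h3 : pw β ℓ 0 (i + n₀) (x + len ℓ 0 (i + n₀) + a) = pw β ℓ 0 (i + n₀) (x + a) := by
        rw [add_right_comm]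
        exact Pool.Agent.Helper51.Mo.pw_per β ℓ hℓ1 hper 0 (i + n₀) (x + a)
      simp only [h2, h3]
    · intro x
      simp only [Pool.Agent.Helper51.Mo.pw_per β ℓ hℓ1 hper (i + n₀) k' x]
    · refine hfreq.mono fun N hN => hN.trans ?_
      have hF : (fun x => ort_u g x * ((η x : ℝ) : ℂ)) =
          FF (len ℓ 0 (i + n₀)) (len ℓ (i + n₀) k') a
            (fun x => ort_u g x * ((pw β ℓ 0 (i + n₀) (x + a) : ℝ) : ℂ))
            (fun x => ((pw β ℓ (i + n₀) k' x : ℝ) : ℂ)) (fun x => ((ω x : ℝ) : ℂ)) := by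
        funext x
        unfold FF
        rw [hη x, Pool.Agent.Helper51.Mo.pw_add, Pool.Agent.Helper51.Mo.len_add ℓ 0 (i + n₀) k',
          Nat.zero_add]
        push_cast
        ring
      rw [← hF, ← ort_re]
      exact Complex.abs_re_le_norm _
  obtain ⟨θ, hθ⟩ := hSTA β ℓ (i + n₀) c hℓ1 hβ key
  exact hSTB β ℓ (i + n₀) c θ hℓ hβ hc hθ

end Pool.Agent.Helper16.MD
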